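import Mathlib
import Pool.Agent.Q104.Perron
import Pool.Agent.Q104.Rooted

/-!
# Attaching a leaf at a vertex of degree three can lower the top eigenvalue of the Ricci matrix
-/

set_option autoImplicit false

namespace Pool.Agent.Results.MP_1a9240_co.LeafLowers

open Matrix Finset
open scoped Classical

/-- the Ricci matrix, indexed by the edges: minus the sum of the reciprocals of the degrees of the two
ends on the diagonal, and off the diagonal the sum of `1 / deg w` over the common end vertices `w` -/
noncomputable def ricci {V : Type} [Fintype V] (G : SimpleGraph V) :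
    Matrix G.edgeSet G.edgeSet ℝ := fun e e' =>
  if e = e' then - ∑ w with w ∈ (e : Sym2 V), 1 / (G.degree w : ℝ)
  else ∑ w with w ∈ (e : Sym2 V) ∧ w ∈ (e' : Sym2 V), 1 / (G.degree w : ℝ)

/-- the largest eigenvalue of the Ricci matrix -/
noncomputable def lamMax {V : Type} [Fintype V] (G : SimpleGraph V) : ℝ :=
  sSup (spectrum ℝ (ricci G))

/-- attaching one new leaf at the vertex `v` -/
def attach {V : Type} (G : SimpleGraph V) (v : V) : SimpleGraph (Option V) where
  Adj x y := match x, y with
    | some a, some b => G.Adj a b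
    | none, some b => b = v
    | some a, none => a = v
    | none, none => False
  symm := ⟨by
    rintro (_ | a) (_ | b) h
    · exact h
    · exact h
    · exact h
    · exact G.symm.symm _ _ h⟩
  loopless := ⟨by
    rintro (_ | a) h
    · exact h
    · exact G.loopless.irrefl a h⟩

section general

variable {V : Type} [Fintype V] (G : SimpleGraph V)

omit [Fintype V] in
lemma attach_ss (v a b : V) : (attach G v).Adj (some a) (some b) ↔ G.Adj a b := Iff.rfl

omit [Fintype V] in
lemma attach_ns (v b : V) : (attach G v).Adj none (some b) ↔ b = v := Iff.rfl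

omit [Fintype V] in
lemma attach_sn (v a : V) : (attach G v).Adj (some a) none ↔ a = v := Iff.rfl

omit [Fintype V] in
lemma attach_nn (v : V) : (attach G v).Adj none none ↔ False := Iff.rfl

/-- the sum of an edge weight over the edges at a vertex -/
noncomputable def S (F : Sym2 V → ℝ) (w : V) : ℝ := ∑ u ∈ G.neighborFinset w, F s(w, u)

lemma ricci_apply (e e' : G.edgeSet) :
    ricci G e e' = ∑ w with w ∈ (e : Sym2 V), (1 / (G.degree w : ℝ)) *
      ((if w ∈ (e' : Sym2 V) then 1 else 0) - 2 * (if e = e' then 1 else 0)) := by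
  rw [ricci]
  split_ifs with h
  · rw [← Finset.sum_neg_distrib]
    refine Finset.sum_congr rfl fun w hw => ?_
    rw [Finset.mem_filter] at hw
    rw [← h, if_pos hw.2]
    ring
  · rw [Finset.sum_filter, Finset.sum_filter]
    refine Finset.sum_congr rfl fun w _ => ?_
    by_cases h1 : w ∈ (e : Sym2 V)
    · by_cases h2 : w ∈ (e' : Sym2 V) <;> simp [h1, h2]
    · simp [h1]

lemma sum_edges (F : Sym2 V → ℝ) (w : V) :
    ∑ e' : G.edgeSet, (if w ∈ (e' : Sym2 V) then F e' else 0) = S G F w := by
  rw [S, ← Finset.sum_filter]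
  symm
  refine Finset.sum_bij (fun u hu => (⟨s(w, u), by simpa using hu⟩ : G.edgeSet)) ?_ ?_ ?_ ?_
  · intro u hu; simp
  · intro u hu u' hu' h
    rw [Subtype.mk.injEq] at h
    exact Sym2.congr_right.mp h
  · rintro ⟨e, he⟩ h
    rw [Finset.mem_filter] at h
    obtain ⟨u, rfl⟩ := Sym2.mem_iff_exists.mp h.2
    exact ⟨u, by simpa using he, rfl⟩
  · intro u hu; rfl

lemma row (F : Sym2 V → ℝ) (e : G.edgeSet) :
    (ricci G *ᵥ fun e' : G.edgeSet => F e') e
      = ∑ w with w ∈ (e : Sym2 V), (1 / (G.degree w : ℝ)) * (S G F w - 2 * F e) := by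
  rw [Matrix.mulVec, dotProduct]
  simp only [ricci_apply, Finset.sum_mul]
  rw [Finset.sum_comm]
  refine Finset.sum_congr rfl fun w _ => ?_
  have h1 : ∀ e' : G.edgeSet, 1 / (G.degree w : ℝ) *
      ((if w ∈ (e' : Sym2 V) then 1 else 0) - 2 * (if e = e' then 1 else 0)) * F e'
      = 1 / (G.degree w : ℝ) * ((if w ∈ (e' : Sym2 V) then F e' else 0)
        - (if e = e' then 2 * F e else 0)) := by
    intro e'
    by_cases h : e = e'
    · rw [if_pos h, if_pos h, ← h]; split_ifs <;> ring
    · rw [if_neg h, if_neg h]; split_ifs <;> ring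
  simp only [h1]
  rw [← Finset.mul_sum, Finset.sum_sub_distrib, sum_edges, Finset.sum_ite_eq]
  simp

lemma row' (F : Sym2 V → ℝ) {u w : V} (h : G.Adj u w) :
    (ricci G *ᵥ fun e' : G.edgeSet => F e') ⟨s(u, w), h⟩
      = (1 / (G.degree u : ℝ)) * (S G F u - 2 * F s(u, w))
        + (1 / (G.degree w : ℝ)) * (S G F w - 2 * F s(u, w)) := by
  rw [row]
  have h1 : (univ.filter fun x => x ∈ (s(u, w) : Sym2 V)) = {u, w} := by
    ext x; simp
  simp only
  rw [h1, Finset.sum_pair h.ne]

lemma herm : (ricci G).IsHermitian := by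
  refine Matrix.IsHermitian.ext fun e e' => ?_
  rw [star_trivial]
  simp only [ricci]
  by_cases h : e = e'
  · rw [h]
  · rw [if_neg h, if_neg (Ne.symm h)]
    refine Finset.sum_congr ?_ fun _ _ => rfl
    ext w
    simp [and_comm]

lemma off_nonneg (e e' : G.edgeSet) (h : e ≠ e') : 0 ≤ ricci G e e' := by
  rw [ricci, if_neg h]
  exact Finset.sum_nonneg fun w _ => by positivity

lemma attach_some (v w : V) (g : Option V → ℝ) :
    ∑ u ∈ (attach G v).neighborFinset (some w), g u
      = ∑ u ∈ G.neighborFinset w, g (some u) + if w = v then g none else 0 := by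
  have h : (attach G v).neighborFinset (some w)
      = (if w = v then {none} else ∅) ∪ (G.neighborFinset w).image some := by
    ext u
    rw [SimpleGraph.mem_neighborFinset, mem_union, mem_image]
    rcases u with _ | u
    · rw [attach_sn]
      split_ifs with h <;> simp [h]
    · rw [attach_ss]
      split_ifs with h <;> simp
  rw [h, Finset.sum_union]
  · rw [add_comm]
    congr 1
    · rw [Finset.sum_image (fun _ _ _ _ h => Option.some_injective _ h)]
    · split_ifs <;> simp
  · rw [Finset.disjoint_left]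
    intro u hu hu'
    rw [mem_image] at hu'
    obtain ⟨x, -, rfl⟩ := hu'
    split_ifs at hu <;> simp at hu

lemma attach_none (v : V) (g : Option V → ℝ) :
    ∑ u ∈ (attach G v).neighborFinset none, g u = g (some v) := by
  have h : (attach G v).neighborFinset none = {some v} := by
    ext u
    rw [SimpleGraph.mem_neighborFinset, mem_singleton]
    rcases u with _ | u
    · rw [attach_nn]; simp
    · rw [attach_ns]; simp
  rw [h, Finset.sum_singleton]

lemma lamMax_le [Nonempty G.edgeSet] {z : G.edgeSet → ℝ} (hz : ∀ e, 0 < z e) {t : ℝ}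
    (h : ∀ e, (ricci G *ᵥ z) e ≤ t * z e) : lamMax G ≤ t :=
  Q104.Perron.sSup_le (herm G) (off_nonneg G) hz h

lemma le_lamMax {x : G.edgeSet → ℝ} (hx : ∀ e, 0 ≤ x e) (hx0 : x ≠ 0) {t : ℝ}
    (h : ∀ e, t * x e ≤ (ricci G *ᵥ x) e) : t ≤ lamMax G :=
  Q104.Perron.le_sSup (herm G) hx hx0 h

end general

/-! ### the tree -/

/-- vertices: root, three children, then eighteen children three times -/
inductive Vt
  | r : Vt
  | a : Fin 3 → Vt
  | b : Fin 3 → Fin 18 → Vt
  | c : Fin 3 → Fin 18 → Fin 18 → Vt
  | d : Fin 3 → Fin 18 → Fin 18 → Fin 18 → Vt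
  deriving DecidableEq, Fintype

/-- the parent -/
def par : Vt → Vt
  | Vt.r => Vt.r
  | Vt.a _ => Vt.r
  | Vt.b i _ => Vt.a i
  | Vt.c i j _ => Vt.b i j
  | Vt.d i j k _ => Vt.c i j k

/-- the depth -/
def dep : Vt → ℕ
  | Vt.r => 0
  | Vt.a _ => 1
  | Vt.b _ _ => 2
  | Vt.c _ _ _ => 3
  | Vt.d _ _ _ _ => 4

/-- the tree -/
def T : SimpleGraph Vt := Q104.Rooted.graph Vt.r par dep (by
  rintro (_ | _ | _ | _ | _) h <;> simp [par, dep] at h ⊢)

lemma adj_iff (u w : Vt) : T.Adj u w ↔ (u ≠ Vt.r ∧ par u = w) ∨ (w ≠ Vt.r ∧ par w = u) := Iff.rfl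

lemma isTree : T.IsTree := Q104.Rooted.isTree _ _ _ _

lemma sum_r (g : Vt → ℝ) : ∑ u ∈ T.neighborFinset Vt.r, g u = ∑ i, g (Vt.a i) := by
  have h : T.neighborFinset Vt.r = univ.image Vt.a := by
    ext u
    rw [SimpleGraph.mem_neighborFinset, adj_iff]
    rcases u with _ | _ | _ | _ | _ <;> simp [par]
  rw [h, Finset.sum_image]
  intro x _ y _ hxy
  simpa using hxy

lemma sum_a (g : Vt → ℝ) (i : Fin 3) :
    ∑ u ∈ T.neighborFinset (Vt.a i), g u = g Vt.r + ∑ j, g (Vt.b i j) := by
  have h : T.neighborFinset (Vt.a i) = insert Vt.r (univ.image (Vt.b i)) := by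
    ext u
    rw [SimpleGraph.mem_neighborFinset, adj_iff]
    rcases u with _ | _ | _ | _ | _ <;> simp [par, eq_comm]
  rw [h, Finset.sum_insert (by simp), Finset.sum_image]
  intro x _ y _ hxy
  simpa using hxy

lemma sum_b (g : Vt → ℝ) (i : Fin 3) (j : Fin 18) :
    ∑ u ∈ T.neighborFinset (Vt.b i j), g u = g (Vt.a i) + ∑ k, g (Vt.c i j k) := by
  have h : T.neighborFinset (Vt.b i j) = insert (Vt.a i) (univ.image (Vt.c i j)) := by
    ext u
    rw [SimpleGraph.mem_neighborFinset, adj_iff]
    rcases u with _ | _ | _ | _ | _ <;> simp [par, eq_comm]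
  rw [h, Finset.sum_insert (by simp), Finset.sum_image]
  intro x _ y _ hxy
  simpa using hxy

lemma sum_c (g : Vt → ℝ) (i : Fin 3) (j k : Fin 18) :
    ∑ u ∈ T.neighborFinset (Vt.c i j k), g u = g (Vt.b i j) + ∑ l, g (Vt.d i j k l) := by
  have h : T.neighborFinset (Vt.c i j k) = insert (Vt.b i j) (univ.image (Vt.d i j k)) := by
    ext u
    rw [SimpleGraph.mem_neighborFinset, adj_iff]
    rcases u with _ | _ | _ | _ | _ <;> simp [par, eq_comm]
  rw [h, Finset.sum_insert (by simp), Finset.sum_image]
  intro x _ y _ hxy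
  simpa using hxy

lemma sum_d (g : Vt → ℝ) (i : Fin 3) (j k l : Fin 18) :
    ∑ u ∈ T.neighborFinset (Vt.d i j k l), g u = g (Vt.c i j k) := by
  have h : T.neighborFinset (Vt.d i j k l) = {Vt.c i j k} := by
    ext u
    rw [SimpleGraph.mem_neighborFinset, adj_iff]
    rcases u with _ | _ | _ | _ | _ <;> simp [par, eq_comm]
  rw [h, Finset.sum_singleton]

/-- the number of children at each depth -/
def kids : ℕ → ℝ
  | 0 => 3
  | 1 => 18
  | 2 => 18
  | 3 => 18
  | _ => 0

/-- one if there is a parent -/
def hasPar : ℕ → ℝ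
  | 0 => 0
  | _ => 1

/-- a sum over neighbours of a function of the larger depth -/
lemma sum_dep (X : ℕ → ℝ) (w : Vt) :
    ∑ u ∈ T.neighborFinset w, X (max (dep w) (dep u))
      = hasPar (dep w) * X (dep w) + kids (dep w) * X (dep w + 1) := by
  rcases w with _ | i | ⟨i, j⟩ | ⟨i, j, k⟩ | ⟨i, j, k, l⟩
  · rw [sum_r]; simp [dep, hasPar, kids]
  · rw [sum_a]; simp [dep, hasPar, kids]
  · rw [sum_b]; simp [dep, hasPar, kids]
  · rw [sum_c]; simp [dep, hasPar, kids]
  · rw [sum_d]; simp [dep, hasPar, kids]

lemma degT (w : Vt) : (T.degree w : ℝ) = hasPar (dep w) + kids (dep w) := by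
  have h := sum_dep (fun _ => 1) w
  simp only [sum_const, SimpleGraph.card_neighborFinset_eq_degree, nsmul_eq_mul, mul_one] at h
  exact h

/-- edge weights that depend only on the depth of the lower end -/
def wt {V : Type} (dp : V → ℕ) (X : ℕ → ℝ) : Sym2 V → ℝ :=
  Sym2.lift ⟨fun u w => X (max (dp u) (dp w)), fun u w => by simp only [max_comm]⟩

lemma wt_mk {V : Type} (dp : V → ℕ) (X : ℕ → ℝ) (u w : V) :
    wt dp X s(u, w) = X (max (dp u) (dp w)) := rfl

/-- the depth in the enlarged tree, the new leaf being at depth five by convention -/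
def dep' : Option Vt → ℕ
  | some w => dep w
  | none => 5

/-- test vector for the tree -/
def X : ℕ → ℝ
  | 1 => 1000000
  | 2 => 828105
  | 3 => 185479
  | 4 => 7981
  | _ => 0

/-- test vector for the enlarged tree -/
def Z : ℕ → ℝ
  | 1 => 1000000
  | 2 => 830480
  | 3 => 186088
  | 4 => 8008
  | 5 => 323956
  | _ => 1

lemma lower : (1.0652 : ℝ) ≤ lamMax T := by
  refine le_lamMax T (x := fun e => wt dep X e) ?_ ?_ ?_
  · rintro ⟨e, he⟩
    induction e with
    | _ u w =>
      simp only [wt_mk, X]
      split <;> norm_num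
  · intro h
    have hadj : T.Adj Vt.r (Vt.a 0) := by rw [adj_iff]; simp [par]
    have := congrFun h ⟨s(Vt.r, Vt.a 0), hadj⟩
    simp only [wt_mk, dep, Pi.zero_apply] at this
    norm_num [X] at this
  · have key : ∀ u w (h : T.Adj u w), par w = u → w ≠ Vt.r →
        1.0652 * X (dep w) ≤ (1 / (T.degree u : ℝ)) * (S T (wt dep X) u - 2 * wt dep X s(u, w))
          + (1 / (T.degree w : ℝ)) * (S T (wt dep X) w - 2 * wt dep X s(u, w)) := by
      intro u w h hp hw
      subst hp
      simp only [S, wt_mk, sum_dep, degT]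
      rcases w with _ | i | ⟨i, j⟩ | ⟨i, j, k⟩ | ⟨i, j, k, l⟩
      · exact absurd rfl hw
      all_goals
        simp only [par, dep, hasPar, kids]
        norm_num [X]
    rintro ⟨e, he⟩
    induction e with
    | _ u w =>
      have he' : T.Adj u w := he
      rcases (adj_iff u w).mp he' with ⟨h1, h2⟩ | ⟨h1, h2⟩
      · have h3 := key w u he'.symm h2 h1
        rw [row' T _ he']
        simp only
        have h4 : wt dep X s(u, w) = X (dep u) := by
          rw [wt_mk, ← h2]
          congr 1
          rcases u with _ | _ | _ | _ | _ <;> simp [par, dep]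
        rw [Sym2.eq_swap] at h3
        rw [h4] at h3 ⊢
        linarith
      · have h3 := key u w he' h2 h1
        rw [row' T _ he']
        simp only
        have h4 : wt dep X s(u, w) = X (dep w) := by
          rw [wt_mk, ← h2]
          congr 1
          rcases w with _ | _ | _ | _ | _ <;> simp [par, dep]
        rw [h4] at h3 ⊢
        linarith

lemma upper : lamMax (attach T Vt.r) ≤ 1.06515 := by
  have hne : Nonempty (attach T Vt.r).edgeSet := ⟨⟨s(none, some Vt.r), rfl⟩⟩
  have hdeg : ∀ w, ((attach T Vt.r).degree (some w) : ℝ)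
      = hasPar (dep w) + kids (dep w) + if w = Vt.r then 1 else 0 := by
    intro w
    have h := attach_some T Vt.r w (fun _ => 1)
    simp only [sum_const, SimpleGraph.card_neighborFinset_eq_degree, nsmul_eq_mul, mul_one] at h
    rw [h, degT]
    by_cases h1 : w = Vt.r
    · rw [if_pos h1, if_pos h1]
    · rw [if_neg h1, if_neg h1]
  have hdegn : ((attach T Vt.r).degree none : ℝ) = 1 := by
    have h := attach_none T Vt.r (fun _ => 1)
    simp only [sum_const, SimpleGraph.card_neighborFinset_eq_degree, nsmul_eq_mul, mul_one] at h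
    exact h
  have hS : ∀ w, S (attach T Vt.r) (wt dep' Z) (some w)
      = hasPar (dep w) * Z (dep w) + kids (dep w) * Z (dep w + 1)
        + if w = Vt.r then Z 5 else 0 := by
    intro w
    rw [S, attach_some T Vt.r w]
    simp only [wt_mk, dep', sum_dep]
    congr 1
    by_cases h : w = Vt.r
    · rw [if_pos h, if_pos h, h]; rfl
    · rw [if_neg h, if_neg h]
  have hSn : S (attach T Vt.r) (wt dep' Z) none = Z 5 := by
    rw [S, attach_none T Vt.r]
    rfl
  refine lamMax_le _ (z := fun e => wt dep' Z e) ?_ ?_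
  · rintro ⟨e, he⟩
    induction e with
    | _ u w =>
      simp only [wt_mk, Z]
      split <;> norm_num
  · have key : ∀ w, w ≠ Vt.r →
        (1 / ((attach T Vt.r).degree (some (par w)) : ℝ)) *
          (S (attach T Vt.r) (wt dep' Z) (some (par w)) - 2 * Z (dep w))
          + (1 / ((attach T Vt.r).degree (some w) : ℝ)) *
          (S (attach T Vt.r) (wt dep' Z) (some w) - 2 * Z (dep w)) ≤ 1.06515 * Z (dep w) := by
      intro w hw
      simp only [hS, hdeg]
      rcases w with _ | i | ⟨i, j⟩ | ⟨i, j, k⟩ | ⟨i, j, k, l⟩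
      · exact absurd rfl hw
      all_goals
        simp only [par, dep, hasPar, kids, reduceCtorEq, if_false, if_true]
        norm_num [Z]
    have key2 : (1 / ((attach T Vt.r).degree (some Vt.r) : ℝ)) *
          (S (attach T Vt.r) (wt dep' Z) (some Vt.r) - 2 * Z 5)
          + (1 / ((attach T Vt.r).degree none : ℝ)) *
          (S (attach T Vt.r) (wt dep' Z) none - 2 * Z 5) ≤ 1.06515 * Z 5 := by
      rw [hS, hSn, hdeg, hdegn]
      simp only [dep, hasPar, kids, if_true]
      norm_num [Z]
    have hdw : ∀ w, w ≠ Vt.r → wt dep' Z s(some (par w), some w) = Z (dep w) := by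
      intro w hw
      rw [wt_mk]
      congr 1
      rcases w with _ | _ | _ | _ | _ <;> simp [par, dep, dep']
    rintro ⟨e, he⟩
    induction e with
    | _ u w =>
      have he' : (attach T Vt.r).Adj u w := he
      rw [row' _ _ he']
      simp only
      rcases u with _ | u <;> rcases w with _ | w
      · exact he'.elim
      · have h1 : w = Vt.r := he'
        subst h1
        have h2 : wt dep' Z s(none, some Vt.r) = Z 5 := rfl
        rw [h2]
        linarith
      · have h1 : u = Vt.r := he'
        subst h1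
        have h2 : wt dep' Z s(some Vt.r, none) = Z 5 := rfl
        rw [h2]
        linarith
      · rcases (adj_iff u w).mp ((attach_ss T Vt.r u w).mp he') with ⟨h1, h2⟩ | ⟨h1, h2⟩
        · subst h2
          have h3 := key u h1
          have h4 := hdw u h1
          rw [Sym2.eq_swap] at h4
          rw [h4]
          linarith
        · subst h2
          have h3 := key w h1
          rw [hdw w h1]
          linarith

/-- **Attaching a leaf at a vertex of degree three can lower the top Ricci eigenvalue.** -/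
theorem result : ∃ (V : Type) (_ : Fintype V) (T : SimpleGraph V) (v : V),
    T.IsTree ∧ T.degree v = 3 ∧ lamMax (attach T v) < lamMax T := by
  refine ⟨Vt, inferInstance, T, Vt.r, isTree, ?_, ?_⟩
  · have h := degT Vt.r
    simp only [dep, hasPar, kids, zero_add] at h
    exact_mod_cast h
  · have h1 := lower
    have h2 := upper
    have h3 : (1.06515 : ℝ) < 1.0652 := by norm_num
    linarith

end Pool.Agent.Results.MP_1a9240_co.LeafLowers
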